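import Pool.Agent.N909.CL.Def

/-!
# CL/H: binomial coefficients and entropy (helper694)
-/

set_option autoImplicit false

namespace Pool.Agent.N694.CL.H

open Finset

/-- the terms of the binomial formula for `(u + v) ^ (u + v)` -/
def T (u v j : ℕ) : ℕ := u ^ j * v ^ (u + v - j) * (u + v).choose j

theorem step (u v j : ℕ) (hj : j < u + v) :
    T u v (j + 1) * ((j + 1) * v) = T u v j * ((u + v - j) * u) := by
  unfold T
  have h1 := Nat.choose_succ_right_eq (u + v) j
  have h2 : u + v - j = (u + v - (j + 1)) + 1 := by omega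
  calc u ^ (j + 1) * v ^ (u + v - (j + 1)) * (u + v).choose (j + 1) * ((j + 1) * v)
      = u ^ (j + 1) * (v ^ (u + v - (j + 1)) * v) * ((u + v).choose (j + 1) * (j + 1)) := by ring
    _ = u ^ (j + 1) * v ^ (u + v - j) * ((u + v).choose j * (u + v - j)) := by
        rw [h1, ← pow_succ, ← h2]
    _ = u ^ j * v ^ (u + v - j) * (u + v).choose j * ((u + v - j) * u) := by ring

theorem up (u v j : ℕ) (hv : 0 < v) (hj : j < u) : T u v j ≤ T u v (j + 1) := by
  have h1 := step u v j (by omega)
  have h2 : (j + 1) * v ≤ (u + v - j) * u := by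
    calc (j + 1) * v ≤ u * v := Nat.mul_le_mul_right _ hj
      _ = v * u := Nat.mul_comm _ _
      _ ≤ (u + v - j) * u := Nat.mul_le_mul_right _ (by omega)
  have h3 : T u v j * ((j + 1) * v) ≤ T u v (j + 1) * ((j + 1) * v) := by
    rw [h1]
    exact Nat.mul_le_mul_left _ h2
  exact Nat.le_of_mul_le_mul_right h3 (by positivity)

theorem down (u v j : ℕ) (hv : 0 < v) (hj : u ≤ j) (hj2 : j < u + v) :
    T u v (j + 1) ≤ T u v j := by
  have h1 := step u v j hj2
  have h2 : (u + v - j) * u ≤ (j + 1) * v := by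
    calc (u + v - j) * u ≤ v * u := Nat.mul_le_mul_right _ (by omega)
      _ = u * v := Nat.mul_comm _ _
      _ ≤ (j + 1) * v := Nat.mul_le_mul_right _ (by omega)
  have h3 : T u v (j + 1) * ((j + 1) * v) ≤ T u v j * ((j + 1) * v) := by
    rw [h1]
    exact Nat.mul_le_mul_left _ h2
  exact Nat.le_of_mul_le_mul_right h3 (by positivity)

theorem low (u v : ℕ) (hv : 0 < v) : ∀ k, k ≤ u → T u v (u - k) ≤ T u v u := by
  intro k
  induction k with
  | zero => intro _; exact le_rfl
  | succ k ih =>
    intro hk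
    have h1 := up u v (u - (k + 1)) hv (by omega)
    have h2 : u - (k + 1) + 1 = u - k := by omega
    rw [h2] at h1
    exact h1.trans (ih (by omega))

theorem high (u v : ℕ) (hv : 0 < v) : ∀ k, k ≤ v → T u v (u + k) ≤ T u v u := by
  intro k
  induction k with
  | zero => intro _; exact le_rfl
  | succ k ih =>
    intro hk
    exact (down u v (u + k) hv (by omega) (by omega)).trans (ih (by omega))

theorem top (u v : ℕ) (hv : 0 < v) (j : ℕ) (hj : j ≤ u + v) : T u v j ≤ T u v u := by
  rcases le_total j u with h | h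
  · have := low u v hv (u - j) (by omega)
    rwa [show u - (u - j) = j by omega] at this
  · have := high u v hv (j - u) (by omega)
    rwa [show u + (j - u) = j by omega] at this

theorem main (u v : ℕ) (hv : 0 < v) :
    (u + v) ^ (u + v) ≤ (u + v + 1) * (u ^ u * v ^ v * (u + v).choose u) := by
  have h1 : (u + v) ^ (u + v) = ∑ j ∈ range (u + v + 1), T u v j := by
    rw [add_pow]
    rfl
  rw [h1]
  calc ∑ j ∈ range (u + v + 1), T u v j ≤ ∑ _j ∈ range (u + v + 1), T u v u :=
        Finset.sum_le_sum fun j hj => top u v hv j (by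
          have := Finset.mem_range.1 hj
          omega)
    _ = (u + v + 1) * (u ^ u * v ^ v * (u + v).choose u) := by
        rw [Finset.sum_const, Finset.card_range, smul_eq_mul]
        unfold T
        rw [Nat.add_sub_cancel_left]

theorem t : Pool.Agent.N909.CL.StmH := by
  intro b u hu hub
  obtain ⟨v, rfl⟩ : ∃ v, b = u + v := ⟨b - u, by omega⟩
  have hv : 0 < v := by omega
  have hu' : (0 : ℝ) < u := by exact_mod_cast hu
  have hv' : (0 : ℝ) < v := by exact_mod_cast hv
  have hb : (0 : ℝ) < ((u + v : ℕ) : ℝ) := by push_cast; linarith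
  have h1 : (((u + v : ℕ) : ℝ)) ^ (u + v) ≤
      (((u + v : ℕ) : ℝ) + 1) * ((u : ℝ) ^ u * (v : ℝ) ^ v * ((u + v).choose u : ℝ)) := by
    exact_mod_cast main u v hv
  have h2 : ((u + v : ℕ) : ℝ) * Real.binEntropy ((u : ℝ) / ((u + v : ℕ) : ℝ)) =
      Real.log ((((u + v : ℕ) : ℝ)) ^ (u + v) / ((u : ℝ) ^ u * (v : ℝ) ^ v)) := by
    have h3 : 1 - (u : ℝ) / ((u + v : ℕ) : ℝ) = (v : ℝ) / ((u + v : ℕ) : ℝ) := by
      field_simp
      push_cast
      ring
    unfold Real.binEntropy
    rw [h3, inv_div, inv_div, Real.log_div hb.ne' hu'.ne', Real.log_div hb.ne' hv'.ne',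
      Real.log_div (by positivity) (by positivity), Real.log_mul (by positivity) (by positivity),
      Real.log_pow, Real.log_pow, Real.log_pow]
    field_simp
    push_cast
    ring
  rw [h2, Real.exp_log (by positivity), div_le_iff₀ (by positivity)]
  calc (((u + v : ℕ) : ℝ)) ^ (u + v) ≤
      (((u + v : ℕ) : ℝ) + 1) * ((u : ℝ) ^ u * (v : ℝ) ^ v * ((u + v).choose u : ℝ)) := h1
    _ = _ := by ring

end Pool.Agent.N694.CL.H
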